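import Mathlib
import Pool.Agent.H376R2.MR.Defs

/-!
Project LT (helper872): the abstract Matomaki-Radziwill machine, version with large frequencies.
Compared with `W78.GA.MachB` the cell bound is only required for the frequencies `|k| ≥ T₀`,
where `T₀` may depend on `M` and `H`; the conclusion is for such frequencies only.
The files `LevA`, `LevB`, `Cnt`, `Mach` are adapted from `W240/GA`, `W397/GA`, `W586/GA`.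
-/

set_option autoImplicit false

namespace Pool.Agent.Y872.L.M

open Finset Filter
open Pool.Agent.H376R2.MR

/-- input of the abstract Matomaki-Radziwill machine -/
structure MachR (P : ℕ → ℕ → ℤ → ℂ) (m : ℕ → ℕ → ℝ) (G : ℝ → ℤ → ℂ) : Prop where
  m_nonneg : ∀ H v, 0 ≤ m H v
  P_le : ∀ H v k, ‖P H v k‖ ≤ m H v
  rich : ∃ c : ℝ, 0 < c ∧ ∃ C : ℝ, ∀ H v₀ v₁ : ℕ, 1 ≤ H → H ≤ v₀ → v₀ ≤ v₁ →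
    c * Real.log ((v₁ : ℝ) / v₀) - C ≤ ∑ v ∈ Ico v₀ v₁, m H v
  cell : ∃ c' : ℝ, 0 < c' ∧ c' ≤ 1 ∧ ∀ M H : ℕ, 1 ≤ H → ∃ T₀ V₀ : ℕ, ∀ v : ℕ, V₀ ≤ v →
    ∀ k : ℤ, (T₀ : ℝ) ≤ |(k : ℝ)| → |(k : ℝ)| ≤ Real.exp (M * (v : ℝ) / H) →
    ‖P H v k‖ ≤ (1 - c') * m H v
  dec : ∃ C : ℝ, 0 < C ∧ ∃ β : ℝ, 0 < β ∧ ∃ Z₀ : ℝ, ∀ H v₀ v₁ : ℕ, 1 ≤ H → H ≤ v₀ →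
    1 ≤ ∑ v ∈ Ico v₀ v₁, m H v → ∀ Y : ℝ, Real.exp (4 * (v₁ : ℝ) / H) ≤ Y → ∃ E : ℤ → ℂ,
      (∀ k : ℤ, G Y k = -(1 / ((∑ v ∈ Ico v₀ v₁, m H v : ℝ) : ℂ)) *
        ∑ v ∈ Ico v₀ v₁, P H v k * G (Y * Real.exp (-((v : ℝ) / H))) k + E k) ∧
      (∀ K : ℕ, 1 ≤ K → (K : ℝ) ≤ Y → ∑ k ∈ FK K, ‖E k‖ ^ 2 ≤
        C * (1 / (∑ v ∈ Ico v₀ v₁, m H v) + 1 / (H : ℝ) ^ 2)) ∧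
      (Z₀ ≤ Y → ∀ U : Finset ℤ, (∀ k ∈ U, |(k : ℝ)| ≤ Y ^ (4 / 3 : ℝ)) → (U.card : ℝ) ≤ Y ^ β →
        ∑ k ∈ U, ‖E k‖ ^ 2 ≤ C * (1 / (∑ v ∈ Ico v₀ v₁, m H v) + 1 / (H : ℝ) ^ 2))
  mom_zero : ∃ C : ℝ, 0 < C ∧ ∀ (K : ℕ) (Z : ℝ), 3 ≤ Z → 1 ≤ K →
    ∑ k ∈ FK K, ‖G Z k‖ ^ 2 ≤ C * (1 + (K : ℝ) / Z)
  momP : ∃ C : ℝ, 1 ≤ C ∧ ∀ H r ℓ K : ℕ, 1 ≤ H → 1 ≤ K → (K : ℝ) ≤ Real.exp ((r : ℝ) * ℓ / H) →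
    ∑ k ∈ FK K, ‖P H r k‖ ^ (2 * ℓ) ≤ C ^ (ℓ + 1) * (ℓ.factorial : ℝ) ^ 8
  mom : ∃ C : ℝ, 1 ≤ C ∧ ∀ (H r ℓ K : ℕ) (Z : ℝ), 1 ≤ H → 3 ≤ Z → 1 ≤ K →
    (K : ℝ) ≤ Z * Real.exp ((r : ℝ) * ℓ / H) →
    ∑ k ∈ FK K, ‖P H r k ^ ℓ * G Z k‖ ^ 2 ≤ C ^ (ℓ + 1) * (ℓ.factorial : ℝ) ^ 8
  sparse : ∃ C : ℝ, 0 < C ∧ ∃ β : ℝ, 0 < β ∧ ∃ Z₀ : ℝ, ∀ Z : ℝ, Z₀ ≤ Z → ∀ U : Finset ℤ,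
    (∀ k ∈ U, |(k : ℝ)| ≤ Z ^ (4 / 3 : ℝ)) → (U.card : ℝ) ≤ Z ^ β → ∑ k ∈ U, ‖G Z k‖ ^ 2 ≤ C

/-- smallness at the level `(H, v₀, v₁)` with exponent `α` -/
def SmA (P : ℕ → ℕ → ℤ → ℂ) (H v₀ v₁ : ℕ) (α : ℝ) (k : ℤ) : Prop :=
  ∀ v ∈ Ico v₀ v₁, ‖P H v k‖ ≤ Real.exp (-(α * v / H))

/-- smallness at the level number `j` -/
def SmjA (P : ℕ → ℕ → ℤ → ℂ) (L : ℕ) (α : ℝ) (j : ℕ) (k : ℤ) : Prop :=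
  SmA P (LL L j) (LL L j ^ 2) (LL L j ^ 3) (aa α j) k

/-- LEVA -/
def S_LEVA : Prop := ∀ (P : ℕ → ℕ → ℤ → ℂ) (m : ℕ → ℕ → ℝ) (G : ℝ → ℤ → ℂ), MachR P m G →
  ∃ C : ℝ, 0 < C ∧ ∀ α : ℝ, 0 < α → α ≤ 1 → ∃ L₀ : ℕ, ∀ L : ℕ, L₀ ≤ L →
    ∀ (Y : ℝ) (K : ℕ), Real.exp (4 * (L : ℝ) ^ 2) ≤ Y → 1 ≤ K → (K : ℝ) * Real.exp ((L : ℝ) ^ 2) ≤ Y →
    (open scoped Classical in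
      ∑ k ∈ (FK K).filter (fun k => SmjA P L α 0 k), ‖G Y k‖ ^ 2) ≤ C / Real.log L

/-- LEVB -/
def S_LEVB : Prop := ∀ (P : ℕ → ℕ → ℤ → ℂ) (m : ℕ → ℕ → ℝ) (G : ℝ → ℤ → ℂ), MachR P m G →
  ∃ C : ℝ, 0 < C ∧ ∀ α : ℝ, 0 < α → α ≤ 1 → ∃ L₀ : ℕ, ∀ L : ℕ, L₀ ≤ L →
    ∀ (j : ℕ) (Y : ℝ) (K : ℕ), Real.exp (4 * (LL L (j + 1) : ℝ) ^ 2) ≤ Y → 1 ≤ K → (K : ℝ) ≤ Y →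
    (open scoped Classical in
      ∑ k ∈ (FK K).filter (fun k => SmjA P L α (j + 1) k ∧ ¬ SmjA P L α j k), ‖G Y k‖ ^ 2) ≤
      C / (3 ^ (j + 1) * Real.log L)

/-- CNT -/
def S_CNT : Prop := ∀ (P : ℕ → ℕ → ℤ → ℂ) (m : ℕ → ℕ → ℝ) (G : ℝ → ℤ → ℂ), MachR P m G →
  ∀ α : ℝ, 0 < α → α ≤ 1 → ∃ L₀ : ℕ, ∀ L : ℕ, L₀ ≤ L → ∃ Y₀ : ℝ, ∀ Y : ℝ, Y₀ ≤ Y →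
    ∀ j K : ℕ, (LL L j : ℝ) ^ 4 ≤ Real.log Y → Real.log Y < (LL L (j + 1) : ℝ) ^ 4 → (K : ℝ) ≤ Y →
    (open scoped Classical in
      (((FK K).filter (fun k => ¬ SmjA P L α j k)).card : ℝ)) ≤ Y ^ (4 * α)

/-- TPART -/
def S_TPART : Prop := S_LEVA → S_LEVB → S_CNT →
  ∀ (P : ℕ → ℕ → ℤ → ℂ) (m : ℕ → ℕ → ℝ) (G : ℝ → ℤ → ℂ), MachR P m G →
    ∀ α η : ℝ, 0 < α → 0 < η → ∃ h : ℝ, 1 ≤ h ∧ ∃ Y₀ : ℝ, ∀ Y : ℝ, Y₀ ≤ Y →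
    ∃ U : Finset ℤ, (U.card : ℝ) ≤ Y ^ α ∧ ∑ k ∈ FK ⌊Y / h⌋₊ \ U, ‖G Y k‖ ^ 2 ≤ η

/-- UPART -/
def S_UPART : Prop := ∀ (P : ℕ → ℕ → ℤ → ℂ) (m : ℕ → ℕ → ℝ) (G : ℝ → ℤ → ℂ), MachR P m G →
  ∀ η : ℝ, 0 < η → ∃ T₀ : ℕ, ∃ α : ℝ, 0 < α ∧ ∃ Y₀ : ℝ, ∀ Y : ℝ, Y₀ ≤ Y → ∀ U : Finset ℤ,
    (∀ k ∈ U, (T₀ : ℝ) ≤ |(k : ℝ)| ∧ |(k : ℝ)| ≤ Y) → (U.card : ℝ) ≤ Y ^ α →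
    ∑ k ∈ U, ‖G Y k‖ ^ 2 ≤ η

/-- the conclusion of the machine -/
def S_MACH : Prop := ∀ (P : ℕ → ℕ → ℤ → ℂ) (m : ℕ → ℕ → ℝ) (G : ℝ → ℤ → ℂ), MachR P m G →
  ∀ η : ℝ, 0 < η → ∃ T₀ : ℕ, ∃ h : ℝ, 1 ≤ h ∧ ∃ Y₀ : ℝ, ∀ Y : ℝ, Y₀ ≤ Y →
    ∑ k ∈ (FK ⌊Y / h⌋₊).filter (fun k : ℤ => T₀ ≤ k.natAbs), ‖G Y k‖ ^ 2 ≤ η

end Pool.Agent.Y872.L.M
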